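import Pool.Agent.Run7.h293.GT.Defs
import Pool.Agent.Run7.h293.CN.A

/-!
# The Galois coniveau over extensions
-/

set_option autoImplicit false

namespace Run7.h293.GT

open Module Polynomial Pool.Agent.W569.FM Run7.h293.TS Run7.h293.CN

theorem frobPow_pow {F : Type} [Field F] {Q : Ideal (OO F)} {q : ℕ} (hq : q ≠ 0) {g : GF F}
    (h : FrobPow Q q g) (n : ℕ) : FrobPow Q (q ^ n) (g ^ n) := by
  have hQ : ∀ x ∈ Q, g • x ∈ Q := by
    intro x hx
    have h1 := Q.add_mem (h x) (Ideal.pow_mem_of_mem Q hx q (Nat.pos_of_ne_zero hq))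
    rwa [sub_add_cancel] at h1
  induction n with
  | zero =>
    intro x
    rw [pow_zero, pow_zero, one_smul, pow_one, sub_self]
    exact Q.zero_mem
  | succ n ih =>
    intro x
    have h1 := hQ _ (ih x)
    have h2 := h (x ^ q ^ n)
    have h3 := Q.add_mem h1 h2
    rw [smul_sub, sub_add_sub_cancel, smul_smul, ← pow_succ', ← pow_mul, ← pow_succ] at h3
    exact h3

theorem eigen_pow {K V : Type} [Field K] [AddCommGroup V] [Module K V] {A : End K V}
    {U : Submodule K V} {α : AlgebraicClosure K} (h : Eigen A U α) (n : ℕ) :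
    Eigen (A ^ n) U (α ^ n) := by
  obtain ⟨x, hx, h0, h1⟩ := h
  refine ⟨x, hx, h0, ?_⟩
  have h2 : minpoly K α ∣ expand K n (minpoly K (α ^ n)) := by
    apply minpoly.dvd
    rw [expand_aeval, minpoly.aeval]
  obtain ⟨P, hP⟩ := h2
  have h3 := congrArg (fun R => aeval A R x) hP
  simp only [expand_aeval, map_mul, Module.End.mul_apply] at h3
  rw [h3]
  have h4 : aeval A (minpoly K α) * aeval A P = aeval A P * aeval A (minpoly K α) := by
    rw [← map_mul, mul_comm, map_mul]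
  rw [← Module.End.mul_apply, h4, Module.End.mul_apply, h1, map_zero]

theorem effective_of_pow {K : Type} [Field K] [CharZero K] {q w n : ℕ} (hq : q ≠ 0) (hn : n ≠ 0)
    {β : AlgebraicClosure K} (h : EffectiveNumber (q ^ n) w (β ^ n)) : EffectiveNumber q w β := by
  obtain ⟨h1, ⟨γ, h2, h3⟩, h4⟩ := h
  have hn' : 0 < n := Nat.pos_of_ne_zero hn
  refine ⟨IsIntegral.of_pow hn' h1, ⟨(q : AlgebraicClosure K) ^ w / β, ?_, ?_⟩, ?_⟩
  · refine IsIntegral.of_pow hn' ?_
    have hβ : β ^ n ≠ 0 := by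
      intro h0
      rw [h0, zero_mul] at h3
      have h5 : ((q ^ n : ℕ) : AlgebraicClosure K) ≠ 0 := Nat.cast_ne_zero.2 (pow_ne_zero n hq)
      exact pow_ne_zero w h5 h3.symm
    have h6 : ((q : AlgebraicClosure K) ^ w / β) ^ n = γ := by
      rw [div_pow, div_eq_iff hβ, mul_comm γ, h3, Nat.cast_pow, ← pow_mul, ← pow_mul, mul_comm]
    rw [h6]
    exact h2
  · have hβ : β ≠ 0 := by
      rintro rfl
      rw [zero_pow hn, zero_mul] at h3
      have h5 : ((q ^ n : ℕ) : AlgebraicClosure K) ≠ 0 := Nat.cast_ne_zero.2 (pow_ne_zero n hq)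
      exact pow_ne_zero w h5 h3.symm
    rw [mul_div_cancel₀ _ hβ]
  · intro z hz
    have hβi : IsIntegral ℤ β := IsIntegral.of_pow hn' h1
    have hβQ : IsIntegral ℚ β := hβi.tower_top
    have h5 : minpoly ℚ β ∣ expand ℚ n (minpoly ℚ (β ^ n)) := by
      apply minpoly.dvd
      rw [expand_aeval, minpoly.aeval]
    have h6 : z ^ n ∈ (minpoly ℚ (β ^ n)).aroots ℂ := by
      rw [mem_aroots]
      refine ⟨minpoly.ne_zero (hβQ.pow n), ?_⟩
      obtain ⟨P, hP⟩ := h5
      have h7 := congrArg (aeval z) hP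
      rw [expand_aeval, map_mul, (mem_aroots.1 hz).2, zero_mul] at h7
      exact h7
    have h8 := h4 _ h6
    rw [norm_pow, Nat.cast_pow, ← pow_mul, ← pow_mul, mul_comm n 2, mul_comm n w, pow_mul,
      pow_mul] at h8
    exact (pow_left_inj₀ (by positivity) (by positivity) hn).1 h8

variable {F K V : Type} [Field F] [Field K] [CharZero K] [TopologicalSpace K] [AddCommGroup V]
  [Module K V] {X : Rep F K V}

/-- **effectivity does not depend on the field** -/
theorem effective_iff {ℓ : ℕ} (hu : X.Unipotent ℓ) {H H' : Subgroup (GF F)} (hH : H.FiniteIndex)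
    (hle : H ≤ H') (hst : ∀ U, X.StableUnder H U → X.StableUnder H' U)
    (hin : ∀ U, X.StableUnder H U → X.StableUnder (unr F) U) {w ν : ℕ} {U : Submodule K V} :
    EffectiveUnder X ℓ H w ν U ↔ EffectiveUnder X ℓ H' w ν U := by
  constructor
  · rintro ⟨h1, h2⟩
    refine ⟨hst U h1, ?_⟩
    intro Q hQ hℓ hI p f hp hpQ hf g hg hFr α hα
    obtain ⟨n, hn, -, hgn⟩ := Subgroup.exists_pow_mem_of_index_ne_zero hH.index_ne_zero g
    have hn' : n ≠ 0 := hn.ne'
    have hFr' : FrobPow Q (p ^ (f * n)) (g ^ n) := by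
      rw [pow_mul]
      exact frobPow_pow (pow_ne_zero f hp.ne_zero) hFr n
    have hα' : Eigen (X.ρ (g ^ n)⁻¹) U (α ^ n) := by
      rw [← inv_pow, map_pow]
      exact eigen_pow hα n
    obtain ⟨β', hβ', hE⟩ := h2 Q hQ hℓ (fun σ hσ => hI σ (hle hσ)) p (f * n) hp hpQ
      (Nat.mul_pos hf hn) (g ^ n) hgn hFr' (α ^ n) hα'
    have hq : ((p ^ f : ℕ) : AlgebraicClosure K) ≠ 0 :=
      Nat.cast_ne_zero.2 (pow_ne_zero f hp.ne_zero)
    refine ⟨α / ((p ^ f : ℕ) : AlgebraicClosure K) ^ ν, ?_, ?_⟩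
    · rw [mul_div_cancel₀ _ (pow_ne_zero ν hq)]
    · refine effective_of_pow (pow_ne_zero f hp.ne_zero) hn' ?_
      have h3 : (α / ((p ^ f : ℕ) : AlgebraicClosure K) ^ ν) ^ n = β' := by
        rw [div_pow, div_eq_iff (pow_ne_zero n (pow_ne_zero ν hq)), hβ', pow_mul, Nat.cast_pow,
          ← pow_mul, ← pow_mul, mul_comm β', mul_comm n ν]
      rw [h3, ← pow_mul]
      exact hE
  · rintro ⟨h1, h2⟩
    have hUH : X.StableUnder H U := fun g hg => h1 g (hle hg)
    refine ⟨hUH, ?_⟩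
    intro Q hQ hℓ hI p f hp hpQ hf g hg hFr α hα
    refine h2 Q hQ hℓ ?_ p f hp hpQ hf g (hle hg) hFr α hα
    intro σ _ hσI x hx
    obtain ⟨n, hn, -, hσn⟩ := Subgroup.exists_pow_mem_of_index_ne_zero hH.index_ne_zero σ
    have hpow : ∀ k : ℕ, InInertia Q (σ ^ k) := by
      intro k
      induction k with
      | zero =>
        intro y
        rw [pow_zero, one_smul, sub_self]
        exact Q.zero_mem
      | succ k ih =>
        intro y
        have h5 := ih (σ • y)
        rw [smul_smul, ← pow_succ] at h5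
        have h6 := Q.add_mem h5 (hσI y)
        rwa [sub_add_sub_cancel] at h6
    have hσU : ∀ y ∈ U, X.ρ σ y ∈ U :=
      hin U hUH σ (Subgroup.subset_closure ⟨Q, hQ, hσI⟩)
    refine fixed_of_pow (hu σ ⟨Q, hQ, hℓ, hσI⟩) hn.ne' fun k => ?_
    have h7 : ((X.ρ σ) ^ k) x ∈ U := by
      induction k with
      | zero => exact hx
      | succ k ih =>
        rw [pow_succ', Module.End.mul_apply]
        exact hσU _ ih
    rw [← map_pow]
    exact hI _ hσn (hpow n) _ h7

end Run7.h293.GT
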