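import Pool.Agent.Run7.h293.CN.Defs

/-!
# Effective subrepresentations and the Galois coniveau: definitions
-/

set_option autoImplicit false

namespace Run7.h293.GT

open Module Polynomial Pool.Agent.W569.FM Run7.h293.TS Run7.h293.CN

/-- `g` acts as `x ↦ x ^ q` modulo the prime `Q` of the ring of all algebraic integers. -/
def FrobPow {F : Type} [Field F] (Q : Ideal (OO F)) (q : ℕ) (g : GF F) : Prop :=
  ∀ x : OO F, g • x - x ^ q ∈ Q

/-- `α` is an eigenvalue of the endomorphism `A` on the subspace `U`. -/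
def Eigen {K V : Type} [Field K] [AddCommGroup V] [Module K V] (A : End K V) (U : Submodule K V)
    (α : AlgebraicClosure K) : Prop :=
  ∃ x ∈ U, x ≠ 0 ∧ aeval A (minpoly K α) x = 0

/-- `β` and `q ^ w / β` are algebraic integers, and all complex absolute values of `β` are
`q ^ (w / 2)`. -/
def EffectiveNumber {K : Type} [Field K] [CharZero K] (q w : ℕ) (β : AlgebraicClosure K) : Prop :=
  IsIntegral ℤ β ∧ (∃ γ, IsIntegral ℤ γ ∧ β * γ = (q : AlgebraicClosure K) ^ w) ∧
    ∀ z ∈ (minpoly ℚ β).aroots ℂ, ‖z‖ ^ 2 = (q : ℝ) ^ w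

variable {F K V : Type} [Field F] [Field K] [CharZero K] [TopologicalSpace K] [AddCommGroup V]
  [Module K V] (X : Rep F K V)

/-- `U` is a subrepresentation for the subgroup `H` (the Galois group of the field `E`), and `U(ν)` is
effective of weight `w`: for each prime `Q ∤ ℓ` whose inertia group in `H` acts trivially on `U`, and each
element `g` of `H` which acts as `x ↦ x ^ q` modulo `Q`, where `q = p ^ f` is a power of the prime
number `p` in `Q` (a power of a Frobenius element), the eigenvalues `α` of `g⁻¹` on `U` are of the form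
`q ^ ν β`, with `EffectiveNumber q w β`. -/
def EffectiveUnder (ℓ : ℕ) (H : Subgroup (GF F)) (w ν : ℕ) (U : Submodule K V) : Prop :=
  X.StableUnder H U ∧ ∀ Q : Ideal (OO F), Q.IsMaximal → (ℓ : OO F) ∉ Q →
    (∀ σ ∈ H, InInertia Q σ → ∀ x ∈ U, X.ρ σ x = x) →
    ∀ p f : ℕ, p.Prime → (p : OO F) ∈ Q → 0 < f → ∀ g ∈ H, FrobPow Q (p ^ f) g →
      ∀ α, Eigen (X.ρ g⁻¹) U α →
        ∃ β, α = ((p ^ f : ℕ) : AlgebraicClosure K) ^ ν * β ∧ EffectiveNumber (p ^ f) w β

/-- The Galois coniveau: the span of all subrepresentations `U` for `H` of `V = H ^ i` such that `U(ν)`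
is effective of weight `i - 2 ν`. -/
def galoisConiveau (ℓ : ℕ) (H : Subgroup (GF F)) (i ν : ℕ) : Submodule K V :=
  sSup {U | EffectiveUnder X ℓ H (i - 2 * ν) ν U}

end Run7.h293.GT
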